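import Mathlib

/-!
# MP_ab166a: the zonal wavenumber bound for the Rossby resonance set fails

The point `(a, b) = (153720320, 52)` belongs to `Λ`, with partner
`(x, y) = (55297625, -129549346)`, and `a > 12 * √3 * b ^ 4`.
-/

namespace Pool.Agent.Results.MP_ab166a_nt.ZonalBoundFails

/-- The wavevector set: the pairs `(a, b)` of integers for which there are integers `x, y` with
`x (a² + b²)(a² + b² - 2ax - 2by) = a (x² + y²)(x² + y² - 2ax - 2by)` and `a x (a - x) ≠ 0`. -/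
def Lam : Set (ℤ × ℤ) :=
  {p | ∃ x y : ℤ,
    x * (p.1 ^ 2 + p.2 ^ 2) * (p.1 ^ 2 + p.2 ^ 2 - 2 * p.1 * x - 2 * p.2 * y)
      = p.1 * (x ^ 2 + y ^ 2) * (x ^ 2 + y ^ 2 - 2 * p.1 * x - 2 * p.2 * y) ∧
    p.1 * x * (p.1 - x) ≠ 0}

/-- **MP_ab166a, Q1, disproved.**  It is not true that every `(a, b) ∈ Λ` with `a, b > 0` is
`(800, 4)` or satisfies `a < √3 b⁴`; indeed some `(a, b) ∈ Λ` with `a, b > 0`, different from
`(800, 4)`, satisfies even `a ≥ 12 √3 b⁴`. -/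
theorem result :
    (¬ ∀ a b : ℤ, (a, b) ∈ Lam → 0 < a → 0 < b →
      (a, b) = (800, 4) ∨ (a : ℝ) < Real.sqrt 3 * (b : ℝ) ^ 4) ∧
    ∃ a b : ℤ, (a, b) ∈ Lam ∧ 0 < a ∧ 0 < b ∧ (a, b) ≠ (800, 4) ∧
      12 * Real.sqrt 3 * (b : ℝ) ^ 4 ≤ (a : ℝ) := by
  have hs0 : 0 ≤ Real.sqrt 3 := Real.sqrt_nonneg 3
  have hs : Real.sqrt 3 ≤ 1.7321 := by
    rw [show (1.7321 : ℝ) = Real.sqrt (1.7321 ^ 2) by
      rw [Real.sqrt_sq (by norm_num)]]
    exact Real.sqrt_le_sqrt (by norm_num)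
  have hmem : ((153720320, 52) : ℤ × ℤ) ∈ Lam :=
    ⟨55297625, -129549346, by norm_num, by norm_num⟩
  have hbig : 12 * Real.sqrt 3 * ((52 : ℤ) : ℝ) ^ 4 ≤ ((153720320 : ℤ) : ℝ) := by
    push_cast
    nlinarith
  refine ⟨?_, ⟨153720320, 52, hmem, by norm_num, by norm_num, by decide, hbig⟩⟩
  intro h
  rcases h 153720320 52 hmem (by norm_num) (by norm_num) with h1 | h1
  · exact absurd h1 (by decide)
  · push_cast at h1 hbig
    nlinarith

end Pool.Agent.Results.MP_ab166a_nt.ZonalBoundFails
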